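import Pool.Agent.Helper91.IP.Defs

/-!
# IP-C2: energy bounds pass to sums of invariant subspaces
-/

namespace Pool.Agent.Helper91.IP

open Finset Equiv Matrix

/-- abstract form: `T` symmetric on a finite-dimensional real inner product space -/
theorem sup_energy_aux {E κ : Type} [NormedAddCommGroup E] [InnerProductSpace ℝ E]
    [FiniteDimensional ℝ E] (T : E →ₗ[ℝ] E) (hT : T.IsSymmetric)
    (U : κ → Submodule ℝ E) (hinv : ∀ k, ∀ u ∈ U k, T u ∈ U k) (c : ℝ)
    (hc : ∀ k, ∀ u ∈ U k, c * inner ℝ u u ≤ inner ℝ u (T u)) :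
    ∀ u ∈ ⨆ k, U k, c * inner ℝ u u ≤ inner ℝ u (T u) := by
  classical
  intro u hu
  set b := hT.eigenvectorBasis (rfl : Module.finrank ℝ E = Module.finrank ℝ E) with hb
  set α := hT.eigenvalues (rfl : Module.finrank ℝ E = Module.finrank ℝ E) with hα
  have hTb : ∀ i, T (b i) = α i • b i := by
    intro i
    exact hT.apply_eigenvectorBasis (rfl : Module.finrank ℝ E = Module.finrank ℝ E) i
  -- eigenvectors below `c` are orthogonal to every `U k`
  have key : ∀ i, α i < c → ∀ k, ∀ v ∈ U k, inner ℝ (b i) v = 0 := by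
    intro i hi k
    set p : E := (U k).starProjection (b i) with hp
    have hpU : p ∈ U k := by
      rw [hp]; exact Submodule.starProjection_apply_mem _ _
    have hpin : ∀ v ∈ U k, inner ℝ p v = inner ℝ (b i) v := by
      intro v hv
      have h1 : inner ℝ (b i - p) v = 0 :=
        (U k).starProjection_inner_eq_zero (b i) v hv
      rw [inner_sub_left] at h1
      linarith
    have hTp : inner ℝ p (T p) = α i * inner ℝ p p := by
      have h1 : inner ℝ p (T p) = inner ℝ (b i) (T p) := hpin _ (hinv k _ hpU)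
      have h2 : inner ℝ (T (b i)) p = inner ℝ (b i) (T p) := hT (b i) p
      rw [h1, ← h2, hTb, inner_smul_left, ← hpin p hpU]
      simp
    have h3 := hc k p hpU
    rw [hTp] at h3
    have h4 : 0 ≤ inner ℝ p p := real_inner_self_nonneg
    have h5 : inner ℝ p p = 0 := by
      by_contra hne
      have : 0 < inner ℝ p p := lt_of_le_of_ne h4 (Ne.symm hne)
      nlinarith
    have hp0 : p = 0 := inner_self_eq_zero.mp h5
    intro v hv
    rw [← hpin v hv, hp0, inner_zero_left]
  have key2 : ∀ i, α i < c → inner ℝ (b i) u = 0 := by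
    intro i hi
    have hle : (⨆ k, U k) ≤ (Submodule.span ℝ {b i})ᗮ := by
      refine iSup_le fun k v hv => ?_
      rw [Submodule.mem_orthogonal_singleton_iff_inner_right]
      exact key i hi k v hv
    have := hle hu
    rwa [Submodule.mem_orthogonal_singleton_iff_inner_right] at this
  have e1 : inner ℝ u u = ∑ i, inner ℝ (b i) u ^ 2 := by
    rw [← b.sum_inner_mul_inner u u]
    refine sum_congr rfl fun i _ => ?_
    rw [real_inner_comm (b i) u]
    ring
  have e2 : inner ℝ u (T u) = ∑ i, α i * inner ℝ (b i) u ^ 2 := by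
    rw [← b.sum_inner_mul_inner u (T u)]
    refine sum_congr rfl fun i _ => ?_
    have h2 : inner ℝ (T (b i)) u = inner ℝ (b i) (T u) := hT (b i) u
    rw [← h2, hTb, inner_smul_left, real_inner_comm (b i) u]
    simp
    ring
  rw [e1, e2, mul_sum]
  refine sum_le_sum fun i _ => ?_
  by_cases hi : α i < c
  · rw [key2 i hi]; simp
  · exact mul_le_mul_of_nonneg_right (not_lt.mp hi) (sq_nonneg _)

/-- IP-C2 (linear algebra) -/
theorem sup_energy {ι κ : Type} [Fintype ι] [DecidableEq ι] (A : Matrix ι ι ℝ) (hA : A.IsSymm)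
    (U : κ → Submodule ℝ (ι → ℝ)) (hinv : ∀ k, ∀ u ∈ U k, A *ᵥ u ∈ U k) (c : ℝ)
    (hc : ∀ k, ∀ u ∈ U k, c * (u ⬝ᵥ u) ≤ u ⬝ᵥ (A *ᵥ u)) :
    ∀ u ∈ ⨆ k, U k, c * (u ⬝ᵥ u) ≤ u ⬝ᵥ (A *ᵥ u) := by
  intro u hu
  set e : EuclideanSpace ℝ ι ≃ₗ[ℝ] (ι → ℝ) := WithLp.linearEquiv 2 ℝ (ι → ℝ) with he
  set T : EuclideanSpace ℝ ι →ₗ[ℝ] EuclideanSpace ℝ ι := Matrix.toEuclideanLin A with hT
  have hTs : T.IsSymmetric := by
    rw [hT, Matrix.isSymmetric_toEuclideanLin_iff]
    rw [Matrix.IsHermitian, Matrix.conjTranspose_eq_transpose_of_trivial]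
    exact hA
  have hin : ∀ x y : EuclideanSpace ℝ ι, inner ℝ x y = e x ⬝ᵥ e y := by
    intro x y
    simp [he, PiLp.inner_apply, dotProduct, mul_comm]
  have hTe : ∀ x : EuclideanSpace ℝ ι, e (T x) = A *ᵥ e x := by
    intro x
    simp [he, hT, Matrix.toEuclideanLin]
  have main := sup_energy_aux T hTs (fun k => (U k).comap e.toLinearMap)
    (fun k v hv => by
      change e (T v) ∈ U k
      rw [hTe]
      exact hinv k _ hv) c
    (fun k v hv => by
      rw [hin, hin, hTe]
      exact hc k _ hv)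
    (e.symm u) (by
      have h1 : (⨆ k, U k) ≤ (⨆ k, (U k).comap e.toLinearMap).map e.toLinearMap := by
        refine iSup_le fun k v hv => ?_
        refine ⟨e.symm v, ?_, by simp⟩
        refine Submodule.mem_iSup_of_mem k ?_
        change e (e.symm v) ∈ U k
        simpa using hv
      obtain ⟨w, hw, hwu⟩ := h1 hu
      have : e.symm u = w := by
        rw [← hwu]; simp
      rw [this]
      exact hw)
  rw [hin, hin, hTe] at main
  simpa using main

end Pool.Agent.Helper91.IP
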